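import Pool.Agent.Lib.UMB.Core
import Pool.Agent.Lib.UMB.Op

set_option autoImplicit false

/-!
# UMB, module VOL: definitions

`v = exp (-θ)` on the closed annulus `1 ≤ |x| ≤ R`, `v = 1` on the inner and `v = 0` on the outer sphere.
`Ft R v t = {θ < t}` together with the closed unit ball, `strip R v s t = {s ≤ θ < t}` (in the open annulus, `0 < s`).
-/

open Filter Topology Set MeasureTheory
open scoped ContDiff

namespace UMB

open Pool.Agent.Lib.PenroseSph (E3 Tens pd gradNorm)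

/-- `v` is continuous on the closed annulus, smooth in the open annulus, `1` on the inner sphere, `0` on the outer
sphere. -/
structure LevOK (R : ℝ) (v : E3 → ℝ) : Prop where
  one_lt : 1 < R
  cont : ContinuousOn v (cann R)
  smooth : ContDiffOn ℝ ∞ v (ann R)
  inner : ∀ x : E3, ‖x‖ = 1 → v x = 1
  outer : ∀ x : E3, ‖x‖ = R → v x = 0

/-- The closed unit ball together with `{θ < t}`. -/
def Ft (R : ℝ) (v : E3 → ℝ) (t : ℝ) : Set E3 := {x | Real.exp (-t) < ext R v x}

/-- The strip `{s ≤ θ < t}` in the open annulus. -/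
def strip (R : ℝ) (v : E3 → ℝ) (s t : ℝ) : Set E3 := {x | x ∈ ann R ∧ Real.exp (-t) < v x ∧ v x ≤ Real.exp (-s)}

/-- The integral of `|∇θ|^(1+q)` over the strip (metric volume). -/
noncomputable def BB (g : Tens) (R : ℝ) (v : E3 → ℝ) (q s t : ℝ) : ℝ :=
  ∫ x in strip R v s t, (gradNorm g v x / v x) ^ (1 + q) * Real.sqrt (g x).det

/-- The integral of `|∇θ|` over the strip (metric volume), the area swept. -/
noncomputable def AA (g : Tens) (R : ℝ) (v : E3 → ℝ) (s t : ℝ) : ℝ :=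
  ∫ x in strip R v s t, gradNorm g v x / v x * Real.sqrt (g x).det

/-- Flat volume of `Ft`. -/
noncomputable def VV (R : ℝ) (v : E3 → ℝ) (t : ℝ) : ℝ := volume.real (Ft R v t)

/-- Flux bound: `∫_{s ≤ θ < t} |∇θ|^(1+q) ≤ (t - s) e^((2-q) t) Φ` for all `0 < s < t ≤ 1`. -/
def FluxLE (g : Tens) (R : ℝ) (v : E3 → ℝ) (q Φ : ℝ) : Prop := ∀ s t : ℝ, 0 < s → s < t → t ≤ 1 →
  BB g R v q s t ≤ (t - s) * (Real.exp ((2 - q) * t) * Φ)

/-- Almost every level is regular. -/
def RegLev (R : ℝ) (v : E3 → ℝ) : Prop := ∀ᵐ t : ℝ, 0 < t → ∀ x ∈ ann R, v x = Real.exp (-t) → fderiv ℝ v x ≠ 0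

end UMB
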