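import Pool.Agent.Lib.UMB.Vol.Defs

set_option autoImplicit false

/-!
# UMB, module VOL: the surface
-/

open Filter Topology Set MeasureTheory
open scoped ContDiff

namespace UMB

open Pool.Agent.Lib.PenroseSph (E3 Tens pd gradNorm)

/-- THE OUTPUT OF MODULE VOL: for small `q`, a flux bound `Φ` gives an enclosing surface of area at most `Φ + κ`. -/
theorem surface {g : Tens} {a M κ : ℝ} (hg : AF g a) (hκ : 0 < κ) :
    ∃ q0 : ℝ, 0 < q0 ∧ ∀ (q R Φ : ℝ) (v : E3 → ℝ), 0 < q → q ≤ q0 → 0 ≤ Φ → Φ ≤ M → LevOK R v → RegLev R v →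
      FluxLE g R v q Φ → ∃ (F : Set E3) (c : ℝ), Encloses F ∧ AreaLE g a F c ∧ c ≤ Φ + κ := by
  sorry

end UMB
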